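import Pool.Agent.W761.CC.Stms

/-!
# Complete condensation in the continuum: good trial functions (part SYM)
-/

set_option autoImplicit false

open MeasureTheory
open scoped ENNReal

namespace Pool.Agent.W377.CC

open Pool.Agent.W761.CB Pool.Agent.W761.CC

theorem el_neg {n : ℕ} (z : Fin n → ℝ) : el (-z) = el z := by
  unfold el
  congr 1
  exact Finset.sum_congr rfl fun c _ => by rw [Pi.neg_apply, neg_sq]

/-- the truncation -/
noncomputable def cut (t : ℝ) : ℝ := max 0 (min 1 t)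

theorem cut_nonneg (t : ℝ) : 0 ≤ cut t := le_max_left _ _

theorem cut_le (t : ℝ) : cut t ≤ 1 := max_le zero_le_one (min_le_left _ _)

theorem cut_sub (a b : ℝ) : |cut a - cut b| ≤ |a - b| := by
  unfold cut
  have h1 : |max 0 (min 1 a) - max 0 (min 1 b)| ≤ |min 1 a - min 1 b| := by
    have := abs_max_sub_max_le_max 0 (min 1 a) 0 (min 1 b)
    simpa using this
  have h2 : |min 1 a - min 1 b| ≤ |a - b| := by
    have := abs_min_sub_min_le_max 1 a 1 b
    simpa using this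
  exact h1.trans h2

theorem cut_zero : cut 0 = 0 := by simp [cut]

theorem cut_one : cut 1 = 1 := by simp [cut]

theorem cut_meas : Measurable cut := measurable_const.max (measurable_const.min measurable_id)

theorem QD_mono {n : ℕ} (μ : ℝ) (v : ℝ → ℝ≥0∞) (f g : (Fin n → ℝ) → ℝ)
    (h1 : ∀ z w, |g z - g w| ≤ |f z - f w|) (h2 : ∀ z, |g z| ≤ |f z|) :
    QD μ v Set.univ g ≤ QD μ v Set.univ f := by
  have h1' : ∀ z w, ENNReal.ofReal ((g z - g w) ^ 2) ≤ ENNReal.ofReal ((f z - f w) ^ 2) :=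
    fun z w => ENNReal.ofReal_le_ofReal (sq_le_sq.2 (h1 z w))
  have h2' : ∀ z, ENNReal.ofReal (g z ^ 2) ≤ ENNReal.ofReal (f z ^ 2) :=
    fun z => ENNReal.ofReal_le_ofReal (sq_le_sq.2 (h2 z))
  unfold QD gr gk
  refine add_le_add (mul_le_mul_right (Finset.sum_le_sum fun c _ => iSup_mono fun k =>
    mul_le_mul_right (lintegral_mono fun z => h1' _ _) _) _)
    (mul_le_mul_right (lintegral_mono fun z => mul_le_mul_right (h2' z) _) _)

theorem gk_neg {n : ℕ} (c : Fin n) (k : ℕ) (f : (Fin n → ℝ) → ℝ) :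
    gk Set.univ c k (fun z => f (-z)) = gk Set.univ c k f := by
  unfold gk
  congr 1
  have h0 : {z : Fin n → ℝ | z ∈ (Set.univ : Set (Fin n → ℝ)) ∧
      z + Pi.single c ((2 : ℝ)⁻¹ ^ k) ∈ (Set.univ : Set (Fin n → ℝ))} = Set.univ := by
    ext z
    simp
  rw [h0, Measure.restrict_univ]
  have h := lintegral_sub_left_eq_self (μ := (volume : Measure (Fin n → ℝ)))
    (fun w => ENNReal.ofReal ((f (w + Pi.single c ((2 : ℝ)⁻¹ ^ k)) - f w) ^ 2))
    (-(Pi.single c ((2 : ℝ)⁻¹ ^ k)))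
  rw [← h]
  refine lintegral_congr fun z => ?_
  congr 1
  have e1 : -(Pi.single c ((2 : ℝ)⁻¹ ^ k)) - z + Pi.single c ((2 : ℝ)⁻¹ ^ k) = -z := by abel
  have e2 : -(Pi.single c ((2 : ℝ)⁻¹ ^ k)) - z = -(z + Pi.single c ((2 : ℝ)⁻¹ ^ k)) := by abel
  rw [e1, e2]
  ring

theorem QD_neg {n : ℕ} (μ : ℝ) (v : ℝ → ℝ≥0∞) (f : (Fin n → ℝ) → ℝ) :
    QD μ v Set.univ (fun z => f (-z)) = QD μ v Set.univ f := by
  unfold QD gr
  simp only [gk_neg]
  congr 2
  rw [Measure.restrict_univ]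
  have h := lintegral_neg_eq_self (μ := (volume : Measure (Fin n → ℝ)))
    (fun w => v (el w) * ENNReal.ofReal (f w ^ 2))
  rw [← h]
  refine lintegral_congr fun z => ?_
  rw [el_neg]

theorem QD_one {n : ℕ} (μ : ℝ) (v : ℝ → ℝ≥0∞) :
    QD μ v Set.univ (fun _ : Fin n → ℝ => (1 : ℝ)) = 2⁻¹ * ∫⁻ z : Fin n → ℝ, v (el z) := by
  unfold QD gr gk
  simp

theorem sym : S_KQ → S_SYM := by
  intro hKQ n μ v hv hvi κ hκ
  obtain ⟨m, hm⟩ : ∃ m, m = ⨅ f ∈ {f : (Fin n → ℝ) → ℝ | Adm f}, QD μ v Set.univ f := ⟨_, rfl⟩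
  have hadm1 : Adm (fun _ : Fin n → ℝ => (1 : ℝ)) :=
    { meas := measurable_const, bdd := ⟨1, fun z => by simp⟩, out := ⟨0, fun z _ => rfl⟩ }
  have hmtop : m ≠ ⊤ := by
    have h1 : m ≤ QD μ v Set.univ (fun _ : Fin n → ℝ => (1 : ℝ)) := by
      rw [hm]
      exact iInf₂_le _ hadm1
    rw [QD_one] at h1
    refine ne_top_of_le_ne_top ?_ h1
    exact ENNReal.mul_ne_top (by simp) hvi
  have hscat : ENNReal.ofReal (scat n μ v / 2 + κ) = m + ENNReal.ofReal κ := by
    unfold scat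
    rw [← hm, mul_div_cancel_left₀ _ (two_ne_zero), ENNReal.ofReal_add ENNReal.toReal_nonneg hκ.le,
      ENNReal.ofReal_toReal hmtop]
  have hlt : m < m + ENNReal.ofReal κ :=
    ENNReal.lt_add_right hmtop (by simpa using hκ)
  obtain ⟨f0, hf0, hf0lt⟩ : ∃ f0 : (Fin n → ℝ) → ℝ, Adm f0 ∧
      QD μ v Set.univ f0 < m + ENNReal.ofReal κ := by
    have h1 := hlt
    conv_lhs at h1 => rw [hm]
    rw [iInf_lt_iff] at h1
    obtain ⟨f0, h2⟩ := h1
    rw [iInf_lt_iff] at h2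
    obtain ⟨h3, h4⟩ := h2
    exact ⟨f0, h3, h4⟩
  obtain ⟨a0, ha0⟩ := hf0.out
  have hf1m : Measurable (fun z => cut (f0 z)) := cut_meas.comp hf0.meas
  have hf1B : BM (fun z : Fin n → ℝ => cut (f0 z)) :=
    ⟨hf1m, 1, fun z => abs_le.2 ⟨by linarith [cut_nonneg (f0 z)], cut_le _⟩⟩
  have hf1nB : BM (fun z : Fin n → ℝ => cut (f0 (-z))) :=
    ⟨hf1m.comp measurable_neg, 1, fun z => abs_le.2 ⟨by linarith [cut_nonneg (f0 (-z))], cut_le _⟩⟩
  have hQ1 : QD μ v Set.univ (fun z => cut (f0 z)) ≤ QD μ v Set.univ f0 := by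
    apply QD_mono
    · intro z w
      exact cut_sub _ _
    · intro z
      have h1 := cut_sub (f0 z) 0
      rwa [cut_zero, sub_zero, sub_zero] at h1
  have hQ2 := (hKQ n Set.univ (Or.inl rfl)).2.1 μ (1 / 2) v _ _ hv hf1B hf1nB (by norm_num) (by norm_num)
  have hneg : QD μ v Set.univ (fun z : Fin n → ℝ => cut (f0 (-z))) =
      QD μ v Set.univ (fun z => cut (f0 z)) := QD_neg μ v (fun z => cut (f0 z))
  refine ⟨fun z => (1 - 1 / 2) * cut (f0 z) + 1 / 2 * cut (f0 (-z)), max 1 a0, ?_, ?_, ?_, le_max_left _ _,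
    ?_, ?_⟩
  · exact (hf1m.const_mul _).add ((hf1m.comp measurable_neg).const_mul _)
  · intro z
    simp only [neg_neg]
    ring
  · intro z
    have h1 := cut_nonneg (f0 z)
    have h2 := cut_nonneg (f0 (-z))
    have h3 := cut_le (f0 z)
    have h4 := cut_le (f0 (-z))
    constructor <;> linarith
  · intro z hz
    have h1 : z ∉ cube n a0 := fun h => hz fun c => (h c).trans (le_max_right _ _)
    have h2 : -z ∉ cube n a0 := fun h => hz fun c => by
      have := h c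
      rw [Pi.neg_apply, abs_neg] at this
      exact this.trans (le_max_right _ _)
    simp only
    rw [ha0 z h1, ha0 _ h2, cut_one]
    norm_num
  · rw [hscat]
    refine le_trans ?_ (hQ1.trans hf0lt.le)
    calc QD μ v Set.univ (fun z => (1 - 1 / 2) * cut (f0 z) + 1 / 2 * cut (f0 (-z)))
        ≤ _ := le_self_add
      _ = _ := hQ2
      _ = QD μ v Set.univ (fun z => cut (f0 z)) := by
        rw [hneg, ← add_mul, ← ENNReal.ofReal_add (by norm_num) (by norm_num)]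
        norm_num

end Pool.Agent.W377.CC
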